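import Pool.Agent.H42.Two.Flag

/-!
Blow-up at the Navier-Stokes exponent for a scalar nearest-neighbour dyadic model of the three
dimensional Navier-Stokes equations with the shell ratio 2, and the exact threshold `5 / 4` (the
Lions exponent) for these models.

The system, with shell ratio `lam`, `B = lam ^ (5 / 2)`, `D = lam ^ (2 s)` (dissipation `(-Δ) ^ s`), is

`X_n' = gain_n - ν D ^ n X_n - B ^ n X_{n+1} (α X_n + β X_{n+1})`, `gain_0 = 0`,
`gain_{n+1} = B ^ n X_n (α X_n + β X_{n+1})`.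

For `β = 0` it is the model of Katz-Pavlovic / Friedlander-Pavlovic, for `α = 0` the model of
Obukhov. The energy `∑ X_n ^ 2` is conserved for `ν = 0`. At `s = 1` the dissipation and the
nonlinearity scale as in the three dimensional Navier-Stokes equations.
-/

namespace Pool.Agent.Results.MP_6bf1e5_an.DyadicLionsThreshold

open Pool.Agent.H42.Flag Pool.Agent.H42.Flag2

/-- 1. Shell ratio `2`, every exponent `0 ≤ s ≤ 26 / 25` (in particular the Navier-Stokes exponent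
`1`), every `ν ≥ 0`, all couplings `β > 0`, `β / 2200 ≤ α ≤ β / 2100`: all large multiples of
`(0, 1, 1 / B, 0, 0, …)` lead to blow-up in finite time.
2. The same for `s = 1`, every shell ratio `lam ≥ 16`, all couplings `β > 0`,
`e ^ (-2 B) β ≤ α ≤ e ^ (-B) β` and all large multiples of `(1, 1 / B ^ 2, 0, 0, …)`.
3. The same for every `s < 5 / 4` and every large shell ratio.
4. For `s ≥ 5 / 4`, all `lam > 1`, `ν > 0`, all real couplings and all rapidly decreasing data the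
smooth solution is global. -/
theorem result :
    (∀ s ν α β : ℝ, 0 ≤ s → s ≤ 26 / 25 → 0 ≤ ν → 0 < β → β / 2200 ≤ α → α ≤ β / 2100 →
      LargeMultiplesBlowUp 2 s ν α β (data 0 1 (2 ^ (-(5 / 2) : ℝ)))) ∧
    (∀ lam ν α β : ℝ, 16 ≤ lam → 0 ≤ ν → 0 < β →
      Real.exp (-(2 * lam ^ (5 / 2 : ℝ))) * β ≤ α → α ≤ Real.exp (-(lam ^ (5 / 2 : ℝ))) * β →
      LargeMultiplesBlowUp lam 1 ν α β (data 1 (lam ^ (-5 : ℝ)) 0)) ∧
    (∀ s : ℝ, s < 5 / 4 → ∃ lam₀ : ℝ, ∀ lam ν α β : ℝ, lam₀ ≤ lam → 0 ≤ ν → 0 < β →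
      Real.exp (-(2 * lam ^ (5 / 2 : ℝ))) * β ≤ α → α ≤ Real.exp (-(lam ^ (5 / 2 : ℝ))) * β →
      LargeMultiplesBlowUp lam s ν α β (data 1 (lam ^ (-5 : ℝ)) 0)) ∧
    (∀ s lam ν α β : ℝ, 5 / 4 ≤ s → 1 < lam → 0 < ν → ∀ x : ℕ → ℝ, Fast x →
      Global α β (lam ^ (5 / 2 : ℝ)) (lam ^ (2 * s)) ν x) := by
  refine ⟨fun s ν α β h0 h1 hν hβ h2 h3 => ratioTwo h0 h1 hν hβ h2 h3,
    fun lam ν α β hl hν hβ h1 h2 => ratioLarge hl ?_ hν hβ h1 h2, fun s hs => ?_,
    fun s lam ν α β hs hl hν x hx => superLions hl hs hν α β hx⟩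
  · have h0 : 0 < lam := by linarith
    rw [show (2 * (1 : ℝ) - 5 / 2) = -(1 / 2) by norm_num, Real.rpow_neg h0.le,
      ← Real.sqrt_eq_rpow]
    have : 4 ≤ Real.sqrt lam := Real.le_sqrt_of_sq_le (by linarith)
    calc (Real.sqrt lam)⁻¹ ≤ (4 : ℝ)⁻¹ := by gcongr
      _ ≤ 7 / 10 := by norm_num
  · obtain ⟨lam₀, h⟩ := subLions hs
    exact ⟨lam₀, fun lam ν α β hl hν hβ h1 h2 =>
      ratioLarge (h lam hl).1 (h lam hl).2 hν hβ h1 h2⟩

end Pool.Agent.Results.MP_6bf1e5_an.DyadicLionsThreshold
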