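import Pool.Agent.H8.HP.Paths

/-!
# Weak solutions with finitely many singular times near every continuous path in `H⁻¹`, in critical norms

Buckmaster and Vicol (2019) constructed non-unique weak solutions of the three-dimensional Navier-Stokes equations;
Buckmaster, Colombo and Vicol (2022) made the set of the singular times of such solutions have Hausdorff dimension
less than one, and Cheskidov and Luo (2022) arbitrarily small positive dimension, together with the integrability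
`L^p(L^∞)` for all `p < 2`, which is the sharp range. Here the set of the singular times is finite, and the solutions
are continuous in time with values in scale invariant spaces.

Let `v` be any continuous path `[0, R] → H⁻¹` of divergence free periodic fields with mean zero (it has to satisfy no
equation), let `w` be any global smooth solution with mean zero, and let `ε > 0`. There are a weak solution `U`, with
the initial value `v(0)`, and a finite set `S ⊂ [0, R]` such that `U` is a smooth classical solution at all positive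
times outside `S`, and even on all closed intervals `[t₀, t₁]` without a point of `S` in `[t₀, t₁)` (so `U` is smooth
from the left also at the points of `S`, and `U(t)` is a smooth field for every `t > 0`), such that `U` is continuous
with values in `H⁻¹` and in the scale invariant spaces `FB^{-1}_{1,m}`, `m > 2`, at all times (uniqueness of the
solutions in this sense is known for `m = 2`), and `U(t)` is within `ε` of `v(t)` in `H⁻¹` for all `t` in `(0, R]`, and
also in `FB^{-1}_{1,m}` for a given `m > 2` if `v` is a continuous path there, and such that `U(R + t)` is uniformly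
within `ε` of `w(t)` for `t ≥ ε`. The growth of `U` after the singular times `s` is `√(t - s) ‖U(t)‖_∞ → 0` and
`∫ (√(t - s) ‖U(t)‖_∞)^q dt/(t - s) < ∞` near `s` for all `q > 2` (for `q = 2` this is the condition
`U ∈ L²(L^∞)`, under which weak solutions with smooth initial values are unique), and, for any function `ψ`, prescribed
in advance, which tends to zero at zero, however slowly, `∫ (ψ(t - s) ‖U(t)‖_∞)² dt < ∞` near `s`. If `v` is continuous with values in
the Wiener algebra then `U` is also within `ε` of `v` in the norm of the Wiener algebra (so uniformly in space) outside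
a set of times of measure at most `ε`, and within `ε` in `L^r(0, R; A)`, `r < 2`.

More generally `U` can be prescribed on an interval `[0, T)`, `T > 0`, as any smooth solution `u` there, for instance the
maximal classical solution of any smooth initial value, up to its time of blow-up if there is one; the path `v` then
has to start at the value of `u` at the time `T`.

(Approximation of arbitrary paths needs more and more singular times as `ε → 0`, since `U` solves the equations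
classically between them. So a finite set is the best possible.)
-/

open MeasureTheory Set Filter Topology
open scoped ContDiff ENNReal

namespace Pool.Agent.Results.MP_6bf1e5_an.FinitelyManySingularTimes

open Pool.Agent.H356R3.NS (AdmissiblePeriodic R3 fc)
open Pool.Agent.K1H11.NS (TestField weakInt pairing)
open H459R3.NS (IsSol)

/-- `b` is the sequence of the Fourier coefficients of a real, divergence free, `ℤ³`-periodic distribution with mean
zero. -/
structure DivFreeSeries (b : (Fin 3 → ℤ) → Fin 3 → ℂ) : Prop where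
  real : ∀ k i, b (-k) i = star (b k i)
  divFree : ∀ k, ∑ i, (k i : ℂ) * b k i = 0
  mean : b 0 = 0

/-- The square of the norm of `H⁻¹`: the sum of `|b(k)|² / |k|²` over `k ≠ 0`. -/
noncomputable def normHMinusOneSq (b : (Fin 3 → ℤ) → Fin 3 → ℂ) : ℝ≥0∞ :=
  ∑' k, if k = 0 then 0 else ‖b k‖ₑ ^ 2 / ENNReal.ofReal (∑ i, (k i : ℝ) ^ 2)

/-- The norm of the Wiener algebra: the sum of `|b(k)|`. -/
noncomputable def wienerNorm (b : (Fin 3 → ℤ) → Fin 3 → ℂ) : ℝ≥0∞ := ∑' k, ‖b k‖ₑ

/-- The norm of the scale invariant Fourier-Besov space `FB^{-1}_{1,m}`: the `ℓ^m` norm over `j` of `2^{-j}` times the sum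
of `|b(k)|` over `2^j ≤ |k| < 2^(j+1)`. -/
noncomputable def fourierBesovNorm (m : ℝ) (b : (Fin 3 → ℤ) → Fin 3 → ℂ) : ℝ≥0∞ :=
  (∑' j : ℕ, ((∑' k : Fin 3 → ℤ, if (4 : ℤ) ^ j ≤ ∑ i, k i ^ 2 ∧ ∑ i, k i ^ 2 < (4 : ℤ) ^ (j + 1) then ‖b k‖ₑ else 0) /
    2 ^ j) ^ m) ^ (1 / m)

/-- `v` is a continuous path on `[0, R]` for the distance `N (x - y)`, with finite `N (v t)`. -/
structure ContinuousPath (N : ((Fin 3 → ℤ) → Fin 3 → ℂ) → ℝ≥0∞) (R : ℝ) (v : ℝ → (Fin 3 → ℤ) → Fin 3 → ℂ) : Prop where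
  finite : ∀ t ∈ Icc 0 R, N (v t) ≠ ⊤
  continuous : ∀ t ∈ Icc 0 R, Tendsto (fun s => N fun k => v s k - v t k) (𝓝[Icc 0 R] t) (𝓝 0)

/-- Let `ν > 0`, `T ≥ 0`, let `(u, p)` be a smooth (unforced) periodic solution on `[0, T)` (if `T = 0` this is no
condition), let `R > 0`, let `v` be a continuous path `[0, R] → H⁻¹` of divergence free fields with mean zero, where
`u(t) → v(0)` coefficientwise as `t ↑ T` if `T > 0`, let `(w, q)` be an admissible (global smooth, unforced) periodic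
solution with mean zero, let `ε > 0` and `0 < r < 2 < m`, and let `ψ : ℝ → ℝ` be any function with `ψ(t) → 0` as
`t ↓ 0`. There are `U : ℝ → R3 → R3` and a finite set `S ⊂ [T, T + R]`
such that
(i) `U(t) = u(t)` for `t < T`,
(ii) for all `T < t₀ ≤ t₁` with `[t₀, t₁) ∩ S = ∅` the field `U` is on `[t₀, t₁]` the restriction of a smooth periodic
solution on a larger interval `[t₀, t₀ + T')`,
(iii) for all `t₀ > T + R` there is a pressure with which `t ↦ U(t₀ + t)`, `t ≥ 0`, is an admissible periodic solution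
with initial velocity `U(t₀)`,
(iv) `|U(t) - w(t - (T + R))| ≤ ε` at all times `t ≥ T + R + ε`, uniformly in space,
(v) `√(t - s) ‖U(t)‖_∞ → 0` as `t ↓ s`, for all `s ∈ S`,
(vi) for all `s ∈ S` there is `L > 0` with `∫_s^{s+L} (√(t - s) ‖U(t)‖_∞)^q' dt/(t - s) < ∞` for all `q' > 2`,
(vii) for all `s ∈ S` there is `L > 0` with `∫_s^{s+L} (ψ(t - s) ‖U(t)‖_∞)² dt < ∞`,
(viii) `U` is continuous with values in `H⁻¹` at all times `t₀ > T`,
(ix) `U(t) → v(0)` in `H⁻¹` as `t → T`, from both sides if `T > 0`,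
(x) `U` is continuous with values in `FB^{-1}_{1,m'}` at all times `t₀ > T`, for all `m' > 2`, and `U(t) → v(0)` in
`FB^{-1}_{1,m'}` as `t ↓ T` if `v(0)` has finite norm there,
(xi) the square of the distance of `U(T + t)` and `v(t)` in `H⁻¹` is at most `ε` for all `t ∈ (0, R]`,
(xii) if `v` is a continuous path in the Wiener algebra then the distance of `U(T + t)` and `v(t)` in the Wiener algebra
is at most `ε` for all `t ∈ (0, R]` outside a set of measure at most `ε`, and the integral over `[0, R]` of its `r`-th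
power is at most `ε`,
(xiii) if `v` is a continuous path in `FB^{-1}_{1,m}` then the distance of `U(T + t)` and `v(t)` in `FB^{-1}_{1,m}` is at
most `ε` for all `t ∈ (0, R]`,
(xiv) `∫_0^{T'} ∫ |U|² dx dt < ∞` for all `T'`,
(xv) `U` is a weak solution on `[0, ∞)` with the initial value `u(0)` if `T > 0` and `v(0)` if `T = 0`: for all smooth
periodic divergence free test fields `φ` on `ℝ × ℝ³` which vanish for large times
`∫_0^∞ ∫ (U · ∂_t φ + ν U · Δφ + ∑ U_i U_j ∂_j φ_i) dx dt + ⟨initial value, φ(0)⟩ = 0`. -/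
theorem result (ν T R : ℝ) (hν : 0 < ν) (hT : 0 ≤ T) (hR : 0 < R)
    (u : ℝ → R3 → R3) (p : ℝ → R3 → ℝ) (hu : IsSol ν T u p)
    (v : ℝ → (Fin 3 → ℤ) → Fin 3 → ℂ) (hv : ∀ t ∈ Icc 0 R, DivFreeSeries (v t))
    (hvc : ContinuousPath normHMinusOneSq R v)
    (huv : 0 < T → ∀ k, Tendsto (fun t => fc (u t) k) (𝓝[<] T) (𝓝 (v 0 k)))
    (w₀ : R3 → R3) (w : ℝ → R3 → R3) (q : ℝ → R3 → ℝ) (hw : AdmissiblePeriodic ν w₀ w q)
    (hm : ∀ i, ∫ x in Icc (0 : R3) 1, w₀ x i = 0) (ε : ℝ) (hε : 0 < ε) (r m : ℝ) (hr : 0 < r) (hr2 : r < 2)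
    (hm2 : 2 < m) (ψ : ℝ → ℝ) (hψ : Tendsto ψ (𝓝[>] 0) (𝓝 0)) :
    ∃ (U : ℝ → R3 → R3) (S : Finset ℝ),
      (∀ s ∈ S, T ≤ s ∧ s ≤ T + R) ∧
      (∀ t : ℝ, t < T → U t = u t) ∧
      (∀ t₀ t₁ : ℝ, T < t₀ → t₀ ≤ t₁ → (∀ s ∈ S, t₀ ≤ s → t₁ ≤ s) →
        ∃ (T' : ℝ) (u' : ℝ → R3 → R3) (p' : ℝ → R3 → ℝ), t₁ - t₀ < T' ∧ IsSol ν T' u' p' ∧
          ∀ s : ℝ, 0 ≤ s → t₀ + s ≤ t₁ → u' s = U (t₀ + s)) ∧
      (∀ t₀ : ℝ, T + R < t₀ → ∃ p' : ℝ → R3 → ℝ, AdmissiblePeriodic ν (U t₀) (fun t => U (t₀ + t)) p') ∧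
      (∀ t : ℝ, T + R + ε ≤ t → ∀ x i, |U t x i - w (t - (T + R)) x i| ≤ ε) ∧
      (∀ s ∈ S, ∀ ρ : ℝ, 0 < ρ → ∃ δ : ℝ, 0 < δ ∧ ∀ t : ℝ, s < t → t ≤ s + δ → ∀ x i,
        Real.sqrt (t - s) * |U t x i| ≤ ρ) ∧
      (∀ s ∈ S, ∃ L : ℝ, 0 < L ∧ ∀ q' : ℝ, 2 < q' → ∫⁻ t in Ioc s (s + L),
        (ENNReal.ofReal (Real.sqrt (t - s)) * ⨆ x, ‖U t x‖ₑ) ^ q' / ENNReal.ofReal (t - s) ≠ ⊤) ∧
      (∀ s ∈ S, ∃ L : ℝ, 0 < L ∧
        ∫⁻ t in Ioc s (s + L), (ENNReal.ofReal (ψ (t - s)) * ⨆ x, ‖U t x‖ₑ) ^ (2 : ℝ) ≠ ⊤) ∧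
      (∀ t₀ : ℝ, T < t₀ →
        Tendsto (fun t : ℝ => normHMinusOneSq fun k => fc (U t) k - fc (U t₀) k) (𝓝 t₀) (𝓝 0)) ∧
      Tendsto (fun t : ℝ => normHMinusOneSq fun k => fc (U t) k - v 0 k) (𝓝[Ioi 0 \ {T}] T) (𝓝 0) ∧
      (∀ m' : ℝ, 2 < m' →
        (∀ t₀ : ℝ, T < t₀ →
          Tendsto (fun t : ℝ => fourierBesovNorm m' fun k => fc (U t) k - fc (U t₀) k) (𝓝 t₀) (𝓝 0)) ∧
        (fourierBesovNorm m' (v 0) ≠ ⊤ →
          Tendsto (fun t : ℝ => fourierBesovNorm m' fun k => fc (U t) k - v 0 k) (𝓝[>] T) (𝓝 0))) ∧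
      (∀ t : ℝ, 0 < t → t ≤ R → normHMinusOneSq (fun k => fc (U (T + t)) k - v t k) ≤ ENNReal.ofReal ε) ∧
      (ContinuousPath wienerNorm R v →
        (∃ E : Set ℝ, MeasurableSet E ∧ volume E ≤ ENNReal.ofReal ε ∧ ∀ t : ℝ, 0 < t → t ≤ R → t ∉ E →
          wienerNorm (fun k => fc (U (T + t)) k - v t k) ≤ ENNReal.ofReal ε) ∧
        ∫⁻ t in Ioc 0 R, wienerNorm (fun k => fc (U (T + t)) k - v t k) ^ r ≤ ENNReal.ofReal ε) ∧
      (ContinuousPath (fourierBesovNorm m) R v → ∀ t : ℝ, 0 < t → t ≤ R →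
        fourierBesovNorm m (fun k => fc (U (T + t)) k - v t k) ≤ ENNReal.ofReal ε) ∧
      (∀ T' : ℝ, ∫⁻ t in Ioc 0 T', ∫⁻ x in Icc (0 : R3) 1, ‖U t x‖ₑ ^ 2 ≠ ⊤) ∧
      ∀ φ : ℝ → R3 → R3, TestField φ →
        IntegrableOn (fun z : ℝ × R3 => weakInt ν U φ z.1 z.2) (Ioi 0 ×ˢ Icc 0 1) ∧
        (∫ z in Ioi (0 : ℝ) ×ˢ Icc (0 : R3) 1, weakInt ν U φ z.1 z.2) +
          pairing (if 0 < T then fc (u 0) else v 0) (φ 0) = 0 := by
  have hP : K1H11.NS.PathN K1H11.NS.NH R v := H8.HP.pathN_NH hvc.finite hvc.continuous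
  obtain ⟨U, S, h1, h2, h3, h4, h5, h6, h7, h7', h8, h9, h10, h11, h12, h13, h14, h15⟩ := H8.HP.along hν hT hR hu
    (fun t ht => ⟨(hv t ht).real, (hv t ht).mean, (hv t ht).divFree, hP.fin t ht⟩) hP huv hw hm hε hr hr2 hm2 hψ
  exact ⟨U, S, h1, h2, h3, h4, h5, h6, h7, h7', h8, h9, h10, h11,
    fun hA => h12 (H8.HP.pathN_of hA.finite hA.continuous), fun hA => h13 (H8.HP.pathN_of hA.finite hA.continuous),
    h14, h15⟩

end Pool.Agent.Results.MP_6bf1e5_an.FinitelyManySingularTimes
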