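import Pool.Agent.H14.NS.Fin

/-!
Leray self-similar blow-up for the Navier-Stokes equations with isotropic bounded weights on the helical
triads.
-/

set_option autoImplicit false

open Set Filter Topology MeasureTheory
open scoped ComplexConjugate ContDiff

namespace Pool.Agent.Results.MP_6bf1e5_an.IsotropicTriadBlowup

open H706N H14NS

theorem result :
    (∀ g, Adm g → op (hw fun _ _ _ _ _ _ => 1) g g = -NL g g) ∧
    ∃ w : Bool → Bool → Bool → ℝ → ℝ → ℝ → ℝ, Wts w ∧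
      (∀ s₁ s₂ s₃ a b c, |w s₁ s₂ s₃ a b c| ≤ 1) ∧
      (∀ g h, Adm g → Adm h → Adm (op (hw w) g h) ∧ pr (op (hw w) g h) h = 0 ∧
        pr (op (hw w) g g) (crl g) = 0 ∧
        (∀ Q : E ≃ₗᵢ[ℝ] E, op (hw w) (act Q g) (act Q h) = act Q (op (hw w) g h)) ∧
        (∀ a, op (hw w) (tr a g) (tr a h) = tr a (op (hw w) g h)) ∧
        ∀ r : ℝ, 0 < r → ∀ k, op (hw w) (dil r g) (dil r h) k = op (hw w) g h (r⁻¹ • k)) ∧
      (∀ α β γ : ℝ, α + β + γ = 5 / 2 → -(3 / 2) < α → α < 3 / 2 → β < 5 / 2 → γ < 5 / 2 →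
        ∃ K : ℝ, ∀ f g h, Adm f → Adm g → Adm h →
          |pr (op (hw w) f g) h| ≤ K * nrm α f * nrm β g * nrm γ h) ∧
      ∀ ν : ℝ, 0 < ν → ∃ (A : ℝ) (u : ℝ → E → W), 0 < A ∧ SolB ν (op (hw w)) (1 / (306 * ν)) u ∧
        (∀ k, u 0 k = (Complex.I * ((A * ‖k‖ ^ 4 * Real.exp (-‖k‖) * k 2 : ℝ) : ℂ)) •
          toW (‖k‖ ^ 2 • EuclideanSpace.single 2 1 - k 2 • k)) ∧
        (∃ x, vel (u 0) x ≠ 0) ∧
        (∀ r : ℕ, ∃ C, ∀ x, (1 + ‖x‖) ^ 6 * ‖iteratedFDeriv ℝ r (vel (u 0)) x‖ ≤ C) ∧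
        (Integrable fun x => ‖vel (u 0) x‖ ^ 2) ∧ (Integrable fun x => ‖vel (u 0) x‖ ^ 3) ∧
        ContinuousOn (fun z : ℝ × E => vel (u z.1) z.2) (Ico 0 (1 / (306 * ν)) ×ˢ univ) ∧
        (∀ t ∈ Ico 0 (1 / (306 * ν)),
          ContDiff ℝ ∞ (vel (u t)) ∧ (∀ x, ∑ j, pd j (fun y => vel (u t) y j) x = 0) ∧
          (∀ x, vel (u t) x = (Real.sqrt (1 - 306 * ν * t))⁻¹ •
            vel (u 0) ((Real.sqrt (1 - 306 * ν * t))⁻¹ • x)) ∧
          ∫ x, ‖vel (u t) x‖ ^ 3 = ∫ x, ‖vel (u 0) x‖ ^ 3) ∧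
        (∀ t ∈ Ioo 0 (1 / (306 * ν)), ∀ x i, HasDerivAt (fun s => vel (u s) x i)
          (ν * ∑ j, pd j (pd j fun y => vel (u t) y i) x
            + vel (op (hw w) (u t) (u t)) x i) t) ∧
        ∀ T' v, SolB ν (op (hw w)) T' v → v 0 = u 0 →
          T' ≤ 1 / (306 * ν) ∧ ∀ t ∈ Ico 0 T', vel (v t) = vel (u t) := by
  refine ⟨fun g hg => op_hw_one hg, ?_⟩
  obtain ⟨ε, hε, h1, hd⟩ := exists_eps'
  have hS := hw_sym (wt_wts ε)
  have hI := hw_inv (wt_wts ε)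
  have hB := hw_bdd hd
  refine ⟨wt ε, wt_wts ε, h1, fun g h hg hh => ⟨adm_op hS hB hg hh, op_skew hS hB hg hh,
    op_hel hS hB hg, fun Q => op_act Q (wt_wts ε) g h, op_tr hS g h,
    fun r hr k => op_dil hS hI g h hr k⟩, ?_, fun ν hν => ?_⟩
  · intro α β γ h hα hα' hβ hγ
    obtain ⟨K, hK, hest⟩ := op_est h hα hα' hβ hγ
    exact ⟨K * (54 * 1), fun f g h hf hg hh => hest _ _ hS hB f g h hf hg hh⟩
  · obtain ⟨A, u, h2, h3, h4, h5, h6, h7, h8, h9, h10⟩ := exist_S hε hd hν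
    obtain ⟨c1, c2, c3⟩ := sol_cls' (wt_wts ε) hd h3
    refine ⟨A, u, h2, h3, fun k => ?_, h5, h6, h7, h8, c1, fun t ht => ⟨(c2 t ht).1, (c2 t ht).2,
      fun x => ?_, (h9 t ht).2⟩, c3, h10⟩
    · rw [h4, Pi.smul_apply]
      unfold prV ek GG ev
      rw [toW_smul', smul_smul]
      have h6' : ∀ (x : ℝ) (v : W), x • v = (x : ℂ) • v := fun x v => by
        ext j
        simp
      rw [h6' A, smul_smul]
      congr 1
      push_cast
      ring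
    · have := (h9 t ht).1 x
      rw [this]
      have e : t / (1 / (306 * ν)) = 306 * ν * t := by field_simp
      rw [e]

end Pool.Agent.Results.MP_6bf1e5_an.IsotropicTriadBlowup
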