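import Pool.Agent.H39.Log.PartE
import Pool.Agent.H39.Log.EulerOp

/-!
The logarithmically supercritical dissipation of Tao and of Barbato, Morandin and Romito is sharp for the class of
symmetric bilinear energy-conserving operators on the three dimensional torus which satisfy the Sobolev product
estimates of the Euler nonlinearity:

`∂ₜu + θ (u · ∇) u + ∇p = -D u + C(u, u)`, `div u = 0`, with a Fourier multiplier `D`.
-/

namespace Pool.Agent.Results.MP_6bf1e5_an.LogSharpThreshold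

open Set
open H459R3.NS (V K3 SP pd)
open Pool.Agent.H39.PDE (fq sob ip)
open Pool.Agent.H39
open Pool.Agent.H39.Lions hiding Field
open Pool.Agent.H39.Log

/-- The class contains the Euler operator. If the multiplier is at least `ν |2 π k|^(5/2) / log (2 + |2 π k|²)`, every
equation of the class has unique global smooth solutions. There are arbitrarily small operators `C` of the class such
that all large Beltrami fields blow up for every multiplier between `0` and
`M |2 π k|^(5/2) / (log (2 + |2 π k|²))^γ`, for all `γ > 1` and all `M`, in a time as short as one likes; at the time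
of blow-up nine tenths of the energy escape to infinitely high frequencies. -/
theorem result :
    (∃ E : (V → V) → (V → V) → V → V, CritType E ∧ ∀ v w, Lions.Field v → Lions.Field w →
      ∃ q : V → ℝ, SP q ∧ ∀ x i, E v w x i =
        -(1 / 2) * (∑ j, v x j * pd j (fun y => w y i) x + ∑ j, w x j * pd j (fun y => v y i) x) - pd i q x) ∧
    (∀ C, CritType C → ∀ (θ ν : ℝ) (D : K3 → ℝ), 0 < ν → (∀ k, D (-k) = D k) →
      (∃ (r : ℕ) (A : ℝ), ∀ k, |D k| ≤ A * (1 + fq k) ^ r) →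
      (∀ k, k ≠ 0 → ν * fq k ^ (5 / 4 : ℝ) / Real.log (2 + fq k) ≤ D k) → ∀ u₀, Lions.Field u₀ →
      ∃ (u : ℝ → V → V) (p : ℝ → V → ℝ), u 0 = u₀ ∧ (∀ T, SolD θ D C T u p) ∧
        ∀ (T : ℝ) (v : ℝ → V → V) (q : ℝ → V → ℝ), SolD θ D C T v q → v 0 = u₀ → ∀ t ∈ Ico 0 T, v t = u t) ∧
    ∀ ε : ℝ, 0 < ε → ∃ C : (V → V) → (V → V) → V → V, CritType C ∧
      (∀ a b c : ℝ, a + b + c = 5 / 2 → ∀ v w z, Lions.Field v → Lions.Field w → Lions.Field z →
        |ip (C v w) z| ≤ ε * 2 ^ (|a| + |b| + |c|) * (sob a v * sob b w * sob c z)) ∧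
      ∀ γ : ℝ, 1 < γ → ∀ M T : ℝ, 0 ≤ M → 0 < T → ∃ A₀ : ℝ, ∀ A, A₀ ≤ A → ∀ D : K3 → ℝ, (∀ k, D (-k) = D k) →
        (∀ k, 0 ≤ D k ∧ D k ≤ M * fq k ^ (5 / 4 : ℝ) / Real.log (2 + fq k) ^ γ) → ∀ θ : ℝ,
        ∃ T₀, T₀ ≤ T ∧ EnergyEscapes θ D C (bel A) T₀ :=
  ⟨⟨euler, crit_euler, fun _ _ hv hw => euler_eq hv hw⟩,
    fun _ hC θ _ _ hν hev hgr hlow _ h0 => globalD hC θ hν hev hgr hlow h0, fun _ hε => partE H42.LogS.p1s hε⟩

end Pool.Agent.Results.MP_6bf1e5_an.LogSharpThreshold
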